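import Pool.Agent.H14.LB.Defs
import Pool.Agent.H5.FC.Lerf

/-!
# Adaptors between the definitions `LB.*` (helper14) and `FCyc.*` (helper5)

`mem_sigmaOne_iff`: the two forms of the BNS invariant agree for finitely generated groups.
`isLERF_iff`: the two forms of LERF agree.
-/

set_option autoImplicit false

namespace LB

open Multiplicative

variable {H : Type} [Group H]

/-- LERF in the two forms. -/
theorem isLERF_iff {G : Type} [Group G] : LB.IsLERF G ↔ FCyc.IsLERF G := by
  unfold LB.IsLERF FCyc.IsLERF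
  refine forall_congr' fun K => imp_congr_right fun _ => ?_
  rw [← Subgroup.coe_sInf, SetLike.coe_set_eq]

/-- a step of `FCyc` is an edge of the induced Cayley graph, or trivial -/
lemma reachable_of_step (χ : H →* Multiplicative ℝ) (S : Finset H) {a b : H}
    (h : FCyc.Step χ (S : Set H) a b) (ha : 0 ≤ toAdd (χ a)) (hb : 0 ≤ toAdd (χ b)) :
    ((cayley S).induce {h | 0 ≤ (fun h => toAdd (χ h)) h}).Reachable ⟨a, ha⟩ ⟨b, hb⟩ := by
  obtain ⟨-, -, s, hs, h⟩ := h
  by_cases hab : a = b
  · subst hab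
    exact SimpleGraph.Reachable.refl _
  · apply SimpleGraph.Adj.reachable
    rw [SimpleGraph.induce_adj]
    unfold cayley
    rw [SimpleGraph.fromRel_adj]
    refine ⟨hab, ?_⟩
    have h2 : a⁻¹ * b ∈ S ∨ b⁻¹ * a ∈ S := by
      rcases h with h | h
      · left
        rw [h, inv_mul_cancel_left]
        exact hs
      · right
        rw [h, inv_mul_cancel_left]
        exact hs
    exact h2

/-- the connectedness of the induced Cayley graph in the two forms -/
theorem connected_iff (χ : H →* Multiplicative ℝ) (S : Finset H) :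
    ((cayley S).induce {h | 0 ≤ (fun h => toAdd (χ h)) h}).Connected ↔
      FCyc.Conn χ (S : Set H) := by
  have h1 : (0 : ℝ) ≤ toAdd (χ 1) := by simp
  constructor
  · intro hc h hh
    have hr := hc.preconnected ⟨1, h1⟩ ⟨h, hh⟩
    rw [SimpleGraph.reachable_iff_reflTransGen] at hr
    have step : ∀ x y : {h | 0 ≤ (fun h => toAdd (χ h)) h},
        ((cayley S).induce {h | 0 ≤ (fun h => toAdd (χ h)) h}).Adj x y →
          FCyc.Step χ (S : Set H) x.1 y.1 := by
      intro x y hxy
      rw [SimpleGraph.induce_adj] at hxy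
      unfold cayley at hxy
      rw [SimpleGraph.fromRel_adj] at hxy
      refine ⟨x.2, y.2, ?_⟩
      rcases hxy.2 with h2 | h2
      · exact ⟨_, h2, Or.inl (by rw [mul_inv_cancel_left])⟩
      · exact ⟨_, h2, Or.inr (by rw [mul_inv_cancel_left])⟩
    have key : ∀ z : {h | 0 ≤ (fun h => toAdd (χ h)) h}, Relation.ReflTransGen
        ((cayley S).induce {h | 0 ≤ (fun h => toAdd (χ h)) h}).Adj ⟨1, h1⟩ z →
        Relation.ReflTransGen (FCyc.Step χ (S : Set H)) 1 z.1 := by
      intro z hz
      induction hz with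
      | refl => exact Relation.ReflTransGen.refl
      | tail _ hbc ih => exact ih.tail (step _ _ hbc)
    exact key ⟨h, hh⟩ hr
  · intro hc
    have key : ∀ h : H, ∀ hh : 0 ≤ toAdd (χ h),
        ((cayley S).induce {h | 0 ≤ (fun h => toAdd (χ h)) h}).Reachable ⟨1, h1⟩ ⟨h, hh⟩ := by
      intro h hh
      have hr := hc h hh
      clear hc
      induction hr with
      | refl => exact SimpleGraph.Reachable.refl _
      | tail _ hbc ih =>
        exact (ih hbc.1).trans (reachable_of_step χ S hbc hbc.1 hbc.2.1)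
    have hne : Nonempty {h | 0 ≤ (fun h => toAdd (χ h)) h} := ⟨⟨1, h1⟩⟩
    refine SimpleGraph.Connected.mk ?_
    intro x y
    exact (key x.1 x.2).symm.trans (key y.1 y.2)

/-- The BNS invariant in the two forms (for finitely generated groups). -/
theorem mem_sigmaOne_iff (hH : Group.FG H) (f : H →* Multiplicative ℝ) :
    (fun h => toAdd (f h)) ∈ LB.sigmaOne H ↔ f ∈ FCyc.Sigma H := by
  have hne : (fun h => toAdd (f h)) ≠ (0 : H → ℝ) ↔ f ≠ 1 := by
    refine not_congr ⟨fun h => ?_, fun h => ?_⟩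
    · ext x
      have := congrFun h x
      simpa using this
    · funext x
      rw [h]
      simp
  have hchar : IsChar (fun h => toAdd (f h)) := by
    intro x y
    simp
  unfold sigmaOne FCyc.Sigma
  simp only [Set.mem_ofPred_eq]
  rw [hne]
  constructor
  · rintro ⟨-, h1, h2⟩
    obtain ⟨S, hS⟩ := Group.fg_def.mp hH
    refine ⟨h1, (S : Set H), S.finite_toSet, hS, ?_⟩
    exact (connected_iff f S).mp (h2 S hS)
  · rintro ⟨h1, S, hSf, hSg, hconn⟩
    refine ⟨hchar, h1, ?_⟩
    intro S' hS'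
    exact (connected_iff f S').mpr (FCyc.sigma_indep f S S' hSf hS' h1 hconn)

/-- Finite-index subgroups of a finitely generated group are finitely generated. -/
theorem fg_of_finiteIndex {G : Type} [Group G] (A : Finset G) (hA : Gen A) (K : Subgroup G)
    (hK : K.FiniteIndex) : Group.FG K := by
  have : Group.FG G := Group.fg_def.mpr ⟨A, hA⟩
  have := hK
  infer_instance

/-- integral characters -/
theorem mem_sigmaOne_toReal (hH : Group.FG H) (ψ : H →* Multiplicative ℤ) :
    (fun h => ((ψ h).toAdd : ℝ)) ∈ LB.sigmaOne H ↔ FCyc.toReal ψ ∈ FCyc.Sigma H :=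
  mem_sigmaOne_iff hH (FCyc.toReal ψ)

theorem neg_mem_sigmaOne_toReal (hH : Group.FG H) (ψ : H →* Multiplicative ℤ) :
    (fun h => -((ψ h).toAdd : ℝ)) ∈ LB.sigmaOne H ↔ FCyc.toReal ψ⁻¹ ∈ FCyc.Sigma H := by
  have h1 : (fun h => -((ψ h).toAdd : ℝ)) = (fun h => ((ψ⁻¹ h).toAdd : ℝ)) := by
    funext h
    simp
  rw [h1]
  exact mem_sigmaOne_toReal hH ψ⁻¹

/-- helper5's theorem `FCyc.not_lerf` for the definitions `LB.*`. -/
theorem not_isLERF {G : Type} [Group G] (K : Subgroup G) (hK : Group.FG K)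
    (ψ : K →* Multiplicative ℤ) (h1 : (fun h => -((ψ h).toAdd : ℝ)) ∈ LB.sigmaOne K)
    (h2 : (fun h => ((ψ h).toAdd : ℝ)) ∉ LB.sigmaOne K) : ¬ LB.IsLERF G := by
  rw [isLERF_iff]
  exact FCyc.not_lerf K ψ ((neg_mem_sigmaOne_toReal hK ψ).mp h1)
    (fun h => h2 ((mem_sigmaOne_toReal hK ψ).mpr h))

end LB
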